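import Pool.Agent.Y833.DX.Xfaqf
import Pool.Agent.Y105.CB.Rho
import Pool.Agent.Y288.CB.TB0
import Pool.Agent.Y288.CB.KB3
import Pool.Agent.Y317.CB.Rhoy
import Pool.Agent.Y46.CB.TBY
import Pool.Agent.Y37.CG.Krz
import Pool.Agent.Y68.CH.CRA
import Pool.Agent.Y472.H.Ela
import Pool.Agent.Y967.CB.Mwk3
import Pool.Agent.Y710.PH.LOCN
import Pool.Agent.Y472.CJ.Elq
import Pool.Agent.Y710.PH.WX
import Pool.Agent.Y899.DR.KFV

/-!
# DX-XFAQF: expansion of the decorated trace for `χ` in the upper half plane, absolute constants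
-/

set_option autoImplicit false

namespace Pool.Agent.Y833.DX

open Pool.Agent.Y472 Pool.Agent.Y481.DR Pool.Agent.Y481.DX

/-- XFAQF -/
theorem xfaqf : S_XFAQF := by
  have hRHO : S_RHO := Pool.Agent.Y105.CB.rho
  have hTB0 : S_TB0 := Pool.Agent.Y288.CB.tb0
  have hKB3 : S_KB3 := Pool.Agent.Y288.CB.kb3 hTB0 hRHO
  have hRY : S_RHOY := Pool.Agent.Y317.CB.rhoy
  have hTY : S_TBY := Pool.Agent.Y46.CB.tby
  have hKR : KRZc := Pool.Agent.Y37.CG.krz hTB0 hTY hRHO hRY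
  exact core Pool.Agent.Y68.CH.cra Pool.Agent.Y472.H.ela Pool.Agent.Y899.DR.t_KFFV hKR hKB3
    Pool.Agent.Y967.CB.MW.mwk3 Pool.Agent.Y710.PH.locn Pool.Agent.Y472.CJ.elq
    Pool.Agent.Y710.PH.wx

end Pool.Agent.Y833.DX
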