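import Pool.Agent.Y833.DX.Xq

/-!
# DX-XFAQF: expansion of the decorated trace for `χ` in the upper half plane, absolute constants
-/

set_option autoImplicit false

namespace Pool.Agent.Y833.DX

open Finset Filter Topology Metric
open Pool.Agent.W711.HT hiding XX
open Pool.Agent.Y472
open Pool.Agent.Y481 (itI itN Sep wts cw)
open Pool.Agent.Y481.DR Pool.Agent.Y481.DX
open Pool.Agent.W719.AX (UX EXY cv)
open Pool.Agent.Y482.Ph (EXL GXc S_LOCN S_WX KXD3 kx3)
open Pool.Agent.Y674.CB (rc_open rc_mono rc_norm rc_zero s_diff s_diff1 s_diff2 s_diff3 Dr_mid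
  log_near bx_mono)
open Pool.Agent.Y809.CH Pool.Agent.Y833.CJ
open Pool.Agent.Y710.DR (YP_sep YP_congr Y_lim)
open scoped Real

/-- XFAQF: expansion of the decorated trace for `χ` in the upper half plane -/
theorem core (hCRA : S_CRA) (hELA : S_ELA) (hKFF : S_KFFV) (hKRZ : KRZc) (hKB : S_KB3)
    (hMWK : S_MWK3) (hLOC : S_LOCN) (hELQ : S_ELQ) (hWX : S_WX) : S_XFAQF := by
  intro hPOTA hGPA hFRD ρ₀ c C s dl hS hA Rd Bd hRd hBd
  obtain ⟨ρ₂, A₂, hρ2, hKX⟩ := hA
  have hρ2p := hKX.hρ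
  obtain ⟨R₀', c₀', hR0', hR0ρ', hc0', hPr⟩ := Pool.Agent.Y837.CB.pot ρ₀ c C s dl hS
  have hρ := hS.hρ
  have hρ0 := hρ.1
  have hC := hS.hC
  have hπ := Real.pi_gt_three
  have hc1 := c1_pos
  obtain ⟨R₀, c', B₀, p₀, hR0, hR00, hR0d, hP⟩ := hPOTA ρ₀ c C s dl hS Rd Bd hRd hBd
  obtain ⟨RG, c₂, B₂, C', MG, hRG, hRG0, hRGd, hc2, hB2, hC', hMG, hG⟩ :=
    hGPA ρ₀ c C s dl hS Rd Bd hRd hBd
  obtain ⟨ρ₁, hρ1, hρ10, HM⟩ := hMWK hKB ρ₀ c C s dl hS
  obtain ⟨⟨ρs, hρs, hρs1, HB⟩, _⟩ := hKB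
  obtain ⟨hB0, hp₀, hbet⟩ : 0 < B₀ ∧ 0 < p₀ ∧ 0 < bet := by
    obtain ⟨B', hB'⟩ := hP R₀ hR0 le_rfl 2 le_rfl
    have h := hB' (fun _ _ _ => 1) (fun _ _ => 0) (fun _ _ => dg_one hBd.le) 0 (rc_zero hR0)
    refine ⟨h.hB, h.hp, ?_⟩
    have h1 := h.pot.pos 0 (fun i _ => rc_zero hR0)
    have h2 : SxF s (fun _ _ => 0) 2 0 0 = ((4 * bet : ℝ) : ℂ) := by
      unfold SxF Sx
      simp only [Pi.zero_apply, hS.zero, sum_const, card_range, nsmul_eq_mul, mul_zero, add_zero]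
      push_cast
      ring
    rw [h2, Complex.ofReal_re] at h1
    have h3 := h.hp
    push_cast at h1
    linarith
  obtain ⟨τK, hτK, HR⟩ := hKRZ (bet / 2) (by positivity)
  have HR' : RK τK := HR
  obtain ⟨R₃, hR3, hs3⟩ := radius hS hbet
  -- the radius of the box of the variables `ψ`
  obtain ⟨R₁, hR1, a1, a2, a3, a4, a5, a6, a7, a8, a9, a10, a11, a12⟩ : ∃ R₁ : ℝ, 0 < R₁ ∧
      R₁ ≤ R₀ ∧ R₁ ≤ ρ₁ ∧ R₁ ≤ τK ∧ R₁ ≤ ρs ∧ R₁ ≤ ρ₀ / 4 ∧ R₁ ≤ R₃ ∧ R₁ ≤ c1 / (64 * C) ∧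
      R₁ ≤ bet ∧ R₁ ≤ 1 ∧ R₁ ≤ ρ₂ ∧ R₁ ≤ R₀' ∧ R₁ ≤ Rd / 4 := by
    refine ⟨min (min (min R₀ ρ₁) (min τK ρs)) (min (min (ρ₀ / 4) R₃) (min (c1 / (64 * C))
      (min bet (min 1 (min ρ₂ (min R₀' (Rd / 4))))))), ?_, ?_, ?_, ?_, ?_, ?_, ?_, ?_, ?_, ?_, ?_,
      ?_, ?_⟩
    · exact lt_min (lt_min (lt_min hR0 hρ1) (lt_min hτK hρs)) (lt_min (lt_min (by positivity) hR3)
        (lt_min (by positivity) (lt_min hbet (lt_min one_pos (lt_min hρ2p
          (lt_min hR0' (by positivity)))))))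
    · exact (min_le_left _ _).trans ((min_le_left _ _).trans (min_le_left _ _))
    · exact (min_le_left _ _).trans ((min_le_left _ _).trans (min_le_right _ _))
    · exact (min_le_left _ _).trans ((min_le_right _ _).trans (min_le_left _ _))
    · exact (min_le_left _ _).trans ((min_le_right _ _).trans (min_le_right _ _))
    · exact (min_le_right _ _).trans ((min_le_left _ _).trans (min_le_left _ _))
    · exact (min_le_right _ _).trans ((min_le_left _ _).trans (min_le_right _ _))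
    · exact (min_le_right _ _).trans ((min_le_right _ _).trans (min_le_left _ _))
    · exact (min_le_right _ _).trans ((min_le_right _ _).trans ((min_le_right _ _).trans
        (min_le_left _ _)))
    · exact (min_le_right _ _).trans ((min_le_right _ _).trans ((min_le_right _ _).trans
        ((min_le_right _ _).trans (min_le_left _ _))))
    · exact (min_le_right _ _).trans ((min_le_right _ _).trans ((min_le_right _ _).trans
        ((min_le_right _ _).trans ((min_le_right _ _).trans (min_le_left _ _)))))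
    · exact (min_le_right _ _).trans ((min_le_right _ _).trans ((min_le_right _ _).trans
        ((min_le_right _ _).trans ((min_le_right _ _).trans ((min_le_right _ _).trans
          (min_le_left _ _))))))
    · exact (min_le_right _ _).trans ((min_le_right _ _).trans ((min_le_right _ _).trans
        ((min_le_right _ _).trans ((min_le_right _ _).trans ((min_le_right _ _).trans
          (min_le_right _ _))))))
  obtain ⟨r, hr⟩ : ∃ r : ℝ, r = R₁ / 8 := ⟨_, rfl⟩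
  have hr0 : 0 < r := by rw [hr]; positivity
  have h8r : 8 * r = R₁ := by rw [hr]; ring
  have hsq : R₁ ^ 2 ≤ R₁ := by
    rw [sq]
    exact mul_le_of_le_one_left hR1.le a9
  have hCr : 4096 * C * r ^ 2 ≤ c1 := by
    have e : 4096 * C * r ^ 2 = 64 * C * R₁ ^ 2 := by rw [hr]; ring
    rw [e]
    calc 64 * C * R₁ ^ 2 ≤ 64 * C * (c1 / (64 * C)) :=
          mul_le_mul_of_nonneg_left (hsq.trans a7) (by positivity)
      _ = c1 := by field_simp
  have hc11 : c1 ≤ 1 := by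
    unfold c1
    rw [div_le_one (by positivity)]
    linarith
  have hqb : c1 * r ^ 2 ≤ bet / 4 := by
    have e : c1 * r ^ 2 ≤ 1 * r ^ 2 := mul_le_mul_of_nonneg_right hc11 (sq_nonneg _)
    have e2 : r ^ 2 = R₁ ^ 2 / 64 := by rw [hr]; ring
    linarith
  have hq0 : 0 < c1 * r ^ 2 := by positivity
  obtain ⟨τB, hτB, HBq⟩ := HB (c1 * r ^ 2 / 8) (by positivity)
  have HBq' : BK ρs (c1 * r ^ 2 / 8) τB := HBq
  obtain ⟨τ, hτ, hτB', hτK', hτr⟩ : ∃ τ : ℝ, 0 < τ ∧ τ ≤ τB ∧ τ ≤ τK ∧ τ ≤ r :=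
    ⟨min τB (min τK r), lt_min hτB (lt_min hτK hr0), min_le_left _ _,
      (min_le_right _ _).trans (min_le_left _ _), (min_le_right _ _).trans (min_le_right _ _)⟩
  obtain ⟨κ, hκ⟩ : ∃ κ : ℝ, κ = c1 * r ^ 2 / 8 := ⟨_, rfl⟩
  have hκ0 : 0 < κ := by rw [hκ]; positivity
  obtain ⟨B, hB⟩ : ∃ B : ℝ, B = B₀ + 4 * C / ρ₀ ^ 2 + 4 * Bd / Rd ^ 2 := ⟨_, rfl⟩
  have hq1 : 0 < 4 * C / ρ₀ ^ 2 := by positivity
  have hq2 : 0 < 4 * Bd / Rd ^ 2 := by positivity
  have hBB0 : B₀ ≤ B := by rw [hB]; linarith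
  have hBq : 4 * C / ρ₀ ^ 2 ≤ B := by rw [hB]; linarith
  have hBq2 : 4 * C / ρ₀ ^ 2 + 4 * Bd / Rd ^ 2 ≤ B := by rw [hB]; linarith
  obtain ⟨Cc, Mc, hCc, hMc, HCR⟩ := hCRA R₁ c' B p₀
  obtain ⟨Me, hMe, HEL⟩ := hELA R₁ c' B p₀ Cc hCc
  obtain ⟨Mf, hMf, HFR⟩ := hFRD R₁ c' B p₀ Cc κ τ hCc hκ0 hτ
  obtain ⟨Mq, hMq, HQ⟩ := hELQ hLOC R₁ c' B p₀ Cc hCc
  obtain ⟨R, hR, b1, b2, b3⟩ : ∃ R : ℝ, 0 < R ∧ R ≤ RG ∧ R ≤ r / 8 ∧ R ≤ τB :=
    ⟨min RG (min (r / 8) τB), lt_min hRG (lt_min (by positivity) hτB), min_le_left _ _,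
      (min_le_right _ _).trans (min_le_left _ _), (min_le_right _ _).trans (min_le_right _ _)⟩
  obtain ⟨M, hM⟩ : ∃ M : ℝ, M = Mc + Me + Mf + MG + 4 * C' / R₁ + Mq :=
    ⟨_, rfl⟩
  have p1 : 0 < 4 * C' / R₁ := by positivity
  have hM1 : Mc ≤ M := by rw [hM]; linarith
  have hM2 : Me ≤ M := by rw [hM]; linarith
  have hM3 : Mf ≤ M := by rw [hM]; linarith
  have hM4 : MG ≤ M := by rw [hM]; linarith
  have hM5 : 4 * C' / R₁ ≤ M := by rw [hM]; linarith
  have hM6 : Mq ≤ M := by rw [hM]; linarith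
  have hM0 : 0 < M := by linarith
  refine ⟨R, 2 * c₂, 2 * B₂, 2 * C', M, hR, by linarith, by linarith, by positivity, by positivity,
    by positivity, hM0, fun k hk ls F An hls hDX hlsM => ?_⟩
  obtain ⟨n, hn⟩ : ∃ n, n = 2 * k := ⟨_, rfl⟩
  have hn2 : 2 ≤ n := by omega
  have hnR : (0 : ℝ) < n := by exact_mod_cast (by omega : 0 < n)
  have hnk : (n : ℝ) = 2 * k := by rw [hn]; push_cast; ring
  have hnC : (n : ℂ) = 2 * k := by rw [hn]; push_cast; ring
  have hls2 : 2 * ls.length = n := by rw [hls, hn]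
  have hlsn : ls ≠ [] := by
    rintro rfl
    simp only [List.length_nil] at hls
    omega
  rw [← hn] at hDX hlsM
  have hcw : ∀ i < n, M ≤ |(cw (wl ls) i : ℝ)| := hlsM
  have hDG : ∀ j < n, DG Rd Bd (vy ls j) (F j) := fun j hj => (hDX j hj).dg
  have hYd : ∀ j < n, ∀ N, Differentiable ℂ (vy ls j N) := fun j hj => (hDG j hj).sub.an
  have hAnL : AnL ls := anL_of_vy (by rw [hls2]; exact fun j hj => (hDG j hj).sub)
  obtain ⟨G, z, hGd, hG1, hG2, hG3⟩ := hG n hn2 (fun j => vy ls j) F hDG (cw (wl ls))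
    fun j hj => hM4.trans (hcw j hj)
  have hsub : Rc R R ⊆ Rc RG RG := rc_mono b1
  have hsub0 : Rc R R ⊆ Rc ρ₀ ρ₀ := rc_mono (by linarith)
  obtain ⟨B', hPB'⟩ := hP R₁ hR1 a1 n hn2
  have hPB := hPB' (fun j => vy ls j) F hDG
  have hFd : ∀ j < n, DifferentiableOn ℂ (F j) (Rc R₁ R₁) := fun j hj =>
    (hDG j hj).Fan.mono (rc_mono (by linarith))
  refine ⟨G, z, hGd.mono hsub, ?_, ?_, ?_, ?_⟩
  · intro χ hχ
    obtain ⟨h1, h2, h3⟩ := hG1 χ (hsub hχ)
    rw [hnk] at h2 h3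
    exact ⟨h1, by linarith, by linarith⟩
  · -- asymptotics
    intro K hKc hKsub hKim
    have hval : ∀ χ ∈ K, ∀ (zz : ℕ → (ℕ → ℂ) → ℕ → ℂ),
        Crt n R₁ c' B' (p₀ * n) Cc (SxF s F n χ) (DxF s F n χ) (cw (wl ls)) zz →
        Uj (SxF s F n χ) (cw (wl ls)) n (zz n 0) = G χ := by
      intro χ hχ zz hcr
      obtain ⟨h1, h2, h3⟩ := hG2 χ (hsub (hKsub hχ))
      rw [h3]
      refine crit_eqF hS hn2 hR1 (by linarith) (hsub0 (hKsub hχ)) hFd hcr ?_ fun j hj => ?_
      · intro j hj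
        have h4 := (h1 j hj).1
        refine rc_norm (h4.trans_lt ?_)
        have h5 : C' / |(cw (wl ls) j : ℝ)| ≤ C' / M :=
          div_le_div_of_nonneg_left hC'.le hM0 (hcw j hj)
        have h6 : C' / M ≤ R₁ / 4 := by
          rw [div_le_iff₀ hR1] at hM5
          rw [div_le_div_iff₀ hM0 (by norm_num)]
          linarith
        linarith
      · exact (h1 j hj).2.2.2.2.2
    have hGc : ContinuousOn (fun χ => (G χ).re) K := by
      intro χ hχ
      have h := (hGd.differentiableAt ((rc_open RG RG).mem_nhds (hsub (hKsub hχ)))).continuousAt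
      exact (Complex.continuous_re.continuousAt.comp h).continuousWithinAt
    have hPK : ∀ χ ∈ K, PotA n R₁ c' B p₀ B' (SxF s F n χ) (DxF s F n χ) := fun χ hχ =>
      potA_mono (hPB χ (rc_mono (by linarith) (hKsub hχ))) hBB0
    have hZ : ∀ χ ∈ K, ∃ zz : ℕ → (ℕ → ℂ) → ℕ → ℂ,
        Crt n R₁ c' B' (p₀ * n) Cc (SxF s F n χ) (DxF s F n χ) (cw (wl ls)) zz := fun χ hχ =>
      HCR n B' _ _ (hPK χ hχ) (cw (wl ls)) fun j hj => hM1.trans (hcw j hj)
    have hfs : ∀ (p : ℕ → ℂ) (χ₀ : ℂ), χ₀ ∈ K → Tendsto p atTop (𝓝 χ₀) →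
        ∀ᶠ N : ℕ in atTop, ‖XFV ls N (p N) -
          itN (fun _ => R₁ / 8) (cw (wl ls)) N n (WY ls n N (p N)) 0‖ ≤
          Real.exp (N * ((G χ₀).re - κ / 2)) := by
      intro p χ₀ hχ₀ hpt
      have hi := hKim χ₀ hχ₀
      have hRχ := hKsub hχ₀
      have hPA := hPK χ₀ hχ₀
      obtain ⟨zz, hcr⟩ := hZ χ₀ hχ₀
      have hre : ∀ x ∈ Rc R₁ R₁, ∀ y ∈ Rc R₁ R₁, 7 / 4 * bet ≤ (s x y χ₀).re := fun x hx y hy =>
        hs3 x (rc_mono a6 hx) y (rc_mono a6 hy) χ₀ (rc_mono (by linarith) hRχ)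
      have hre' : ∀ x ∈ Rc R₁ R₁, ∀ y ∈ Rc R₁ R₁, 3 / 2 * bet < (s x y χ₀).re :=
        fun x hx y hy => lt_of_lt_of_le (by linarith) (hre x hx y hy)
      have hχ1 : χ₀ ∈ Rc R₁ R₁ := rc_mono (by linarith) hRχ
      -- far part
      have eYn : ∀ ε : ℝ, 0 < ε → ∀ᶠ N : ℕ in atTop, ∀ j ∈ range n, ∀ ψ ∈ Rc Rd Rd,
          ‖vy ls j N ψ‖ ≤ Real.exp (N * ((F j ψ).re + ε)) := by
        intro ε hε
        rw [Filter.eventually_all_finset]
        intro j hj
        exact yb_near (hDG j (mem_range.1 hj)) hε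
      have eYg : ∀ᶠ N : ℕ in atTop, ∀ j ∈ range n, ∀ ψ : ℂ, |ψ.re| ≤ π → |ψ.im| ≤ 1 / N →
          ‖vy ls j N ψ‖ ≤ Real.exp (N * κ) := by
        rw [Filter.eventually_all_finset]
        intro j hj
        exact (hDG j (mem_range.1 hj)).sub.gr κ hκ0
      have hfar := HFR n B' (fun j x y => s x y χ₀ + F j x) hn2
        (by rw [sg_eq, dg_eq]; exact hPA) (by
          intro j hj ψ hψ ψ' hψ'
          have hψ0 : ψ ∈ Rc ρ₀ ρ₀ := rc_mono (by linarith) hψ
          have hψ'0 : ψ' ∈ Rc ρ₀ ρ₀ := rc_mono (by linarith) hψ'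
          have hχ0 := hsub0 hRχ
          have hnorm : ‖ψ‖ < ρ₀ / 2 := by
            have := Complex.norm_le_abs_re_add_abs_im ψ
            linarith [hψ.1, hψ.2]
          have hnormd : ‖ψ‖ < Rd / 2 := by
            have := Complex.norm_le_abs_re_add_abs_im ψ
            linarith [hψ.1, hψ.2]
          have h1 := quad (f := fun w => s w ψ' χ₀) hρ0 (fun w hw =>
            (s_diff1 hS hw hψ'0 hχ0).differentiableWithinAt)
            (fun w hw => hS.ev w hw ψ' hψ'0 χ₀ hχ0) (fun w hw => hS.sbd w hw ψ' hψ'0 χ₀ hχ0) hnorm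
          have h1F := quad (f := F j) hRd (hDG j hj).Fan (hDG j hj).Fev (hDG j hj).Fbd hnormd
          beta_reduce at h1
          refine ⟨?_, ?_⟩
          · have e : s ψ ψ' χ₀ + F j ψ - (s 0 ψ' χ₀ + F j 0) =
                (s ψ ψ' χ₀ - s 0 ψ' χ₀) + (F j ψ - F j 0) := by ring
            rw [e]
            refine (norm_add_le _ _).trans ((add_le_add h1 h1F).trans ?_)
            rw [← add_mul]
            exact mul_le_mul_of_nonneg_right hBq2 (sq_nonneg _)
          · have e : s ψ' ψ χ₀ + F j ψ' - (s ψ' 0 χ₀ + F j ψ') = s ψ' ψ χ₀ - s ψ' 0 χ₀ := by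
              ring
            rw [e, hS.sym ψ' hψ'0 ψ hψ0 χ₀ hχ0, hS.sym ψ' hψ'0 0 (rc_zero hρ0) χ₀ hχ0]
            exact h1.trans (mul_le_mul_of_nonneg_right hBq (sq_nonneg _)))
        (cw (wl ls)) (fun j hj => hM3.trans (hcw j hj)) zz (by rw [sg_eq, dg_eq]; exact hcr)
        (fun N j x y => kF N x y (p N) * vy ls j N x)
        (fun N l hl i hi' j hj => (kF_sep N hi' hj _).mul (Sep.var hi' (hYd l hl N)))
        (by
          intro ε hε
          filter_upwards [near_bd hS hρ10 HM HR' hbet a2 a3 hχ1 (by linarith) hpt hi hre'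
            (half_pos hε), eYn (ε / 2) (half_pos hε)] with N h1 h2 j hj ψ hψ ψ' hψ'
          refine exp_comb (h1 ψ (rc_mono (by linarith) hψ) ψ' (rc_mono (by linarith) hψ'))
            (h2 j (mem_range.2 hj) ψ (rc_mono (by linarith) hψ)) ?_
          rw [Complex.add_re]
          linarith)
        (by
          have h := far1 hS hr0 HBq' HR' hbet (by linarith) (by linarith) hCr hqb b2 b3 hτ hτB'
            hτK' hτr hRχ hpt hi (fun y hy => hre 0 (rc_zero hR1) y (by rwa [h8r] at hy))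
          filter_upwards [h, eYg, eYn κ hκ0] with N h1 hg hn' j hj ψ ψ' h2 h3 h4 h5 h6
          rw [← hr] at h2 h5
          obtain ⟨q1, q2⟩ := h1 ψ ψ' h2 h3 h4 h5 h6
          have hψ'd : ψ' ∈ Rc Rd Rd := ⟨by linarith, by linarith⟩
          refine ⟨exp_comb q1 (hg j (mem_range.2 hj) ψ h3 h4) ?_,
            exp_comb q2 (hn' j (mem_range.2 hj) ψ' hψ'd) ?_⟩
          · rw [(hDG j hj).F0, add_zero]
            linarith
          · rw [Complex.add_re]
            linarith)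
        (by
          have h := far2 hS hr0 HBq' HR' hbet (by linarith) (by linarith) hCr hqb b2 b3 hτ hτB'
            hτK' hτr hRχ hpt hi (fun y hy => hre 0 (rc_zero hR1) y (by rwa [h8r] at hy))
          filter_upwards [h, eYg] with N h1 hg j hj ψ ψ' h2 h3 h4 h5 h6 h7
          rw [← hr] at h2 h5
          refine exp_comb (h1 ψ ψ' h2 h3 h4 h5 h6 h7) (hg j (mem_range.2 hj) ψ h3 h4) ?_
          rw [(hDG j hj).F0, add_zero]
          linarith)
      filter_upwards [hfar, gap_ev hpt hi, eventually_ge_atTop 2] with N h1 h2 h3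
      have h4 := hKFF N ls (p N) h3 hlsn hAnL (fun t ht1 ht2 => ph_ne h3 h2 ht1 ht2)
      have h5 : XFV ls N (p N) = itI (cw (wl ls)) N n (WY ls n N (p N)) 0 := by
        unfold XFV
        rw [h4, ← mul_assoc, inv_mul_cancel₀, one_mul, hls2]
        · rfl
        have hN0 : (N : ℂ) ≠ 0 := by exact_mod_cast (by omega : N ≠ 0)
        have hπ0 : (π : ℂ) ≠ 0 := by exact_mod_cast Real.pi_ne_zero
        exact pow_ne_zero _ (div_ne_zero hN0 (mul_ne_zero two_ne_zero hπ0))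
      rw [h5]
      rw [wr_eq hls2, sg_eq, hval χ₀ hχ₀ zz hcr] at h1
      exact h1
    have hseq := Pool.Agent.W583.HT.seq ℂ K hKc
      (fun N χ => Real.log ‖XFV ls N χ‖ / N) (fun χ => (G χ).re) hGc (by
        intro p χ₀ hχ₀ hp hpt
        have hi := hKim χ₀ hχ₀
        have hRχ := hKsub hχ₀
        have hPA := hPK χ₀ hχ₀
        obtain ⟨zz, hcr⟩ := hZ χ₀ hχ₀
        have hre : ∀ x ∈ Rc R₁ R₁, ∀ y ∈ Rc R₁ R₁, 7 / 4 * bet ≤ (s x y χ₀).re := fun x hx y hy =>
          hs3 x (rc_mono a6 hx) y (rc_mono a6 hy) χ₀ (rc_mono (by linarith) hRχ)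
        have hre' : ∀ x ∈ Rc R₁ R₁, ∀ y ∈ Rc R₁ R₁, 3 / 2 * bet < (s x y χ₀).re :=
          fun x hx y hy => lt_of_lt_of_le (by linarith) (hre x hx y hy)
        have hχ1 : χ₀ ∈ Rc R₁ R₁ := rc_mono (by linarith) hRχ
        -- near part
        have hlimf := lim_mul hS hρ10 HM HR' hbet a2 a3 (n := n) (by omega) hχ1 hpt hi hre' hls2
          hDG (by linarith)
        have hnear := HEL n B' _ _ hPA (cw (wl ls)) (fun j hj => hM2.trans (hcw j hj)) zz hcr
          (fun N => WY ls n N (p N)) (fun N => WY_sep (by omega) hls2 hYd N _)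
          (fun ψ ψ₀ h1 h2 => hlimf ψ ψ₀ (bx_mono (by linarith) h1) h2) n le_rfl (fun _ => 0) 0
          (fun i _ => rc_zero (by positivity)) (fun i _ => tendsto_const_nhds)
        beta_reduce at hnear
        have hG0 := hval χ₀ hχ₀ zz hcr
        rw [hG0] at hnear
        have hpos := (hcr.close n le_rfl 0 (fun i _ => rc_zero (by positivity))).2
        rw [hG0] at hpos
        have hGp : 0 < (G χ₀).re := lt_of_lt_of_le (by positivity) hpos
        refine log_near (b := fun N => itN (fun _ => R₁ / 8) (cw (wl ls)) N n (WY ls n N (p N)) 0)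
          (g' := (G χ₀).re - κ / 2) (Cf := 1) hGp (by linarith) hnear ?_
        filter_upwards [hfs p χ₀ hχ₀ hpt] with N h1
        rw [one_mul]
        exact h1)
    have hfarK : ∀ᶠ N : ℕ in atTop, ∀ χ ∈ K, ‖XFV ls N χ -
        itN (fun _ => R₁ / 8) (cw (wl ls)) N n (WY ls n N χ) 0‖ ≤
        Real.exp (N * ((G χ).re - κ / 4)) := by
      classical
      have h := Pool.Agent.W583.HT.seq ℂ K hKc (fun N χ => if ‖XFV ls N χ -
        itN (fun _ => R₁ / 8) (cw (wl ls)) N n (WY ls n N χ) 0‖ ≤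
        Real.exp (N * ((G χ).re - κ / 4)) then 0 else 1) (fun _ => 0)
        continuousOn_const (by
          intro p χ₀ hχ₀ hp hpt
          have h1 : Tendsto (fun N => (G (p N)).re) atTop (𝓝 (G χ₀).re) :=
            (hGc χ₀ hχ₀).tendsto.comp
              (tendsto_nhdsWithin_iff.2 ⟨hpt, Filter.Eventually.of_forall hp⟩)
          have h2 := h1.eventually (lt_mem_nhds (show (G χ₀).re - κ / 4 <
            (G χ₀).re by linarith))
          refine tendsto_const_nhds.congr' ?_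
          filter_upwards [hfs p χ₀ hχ₀ hpt, h2] with N h3 h4
          rw [if_pos]
          refine h3.trans (Real.exp_le_exp.2 (mul_le_mul_of_nonneg_left ?_ (Nat.cast_nonneg N)))
          linarith) (1 / 2) (by norm_num)
      filter_upwards [h] with N hN χ hχ
      by_contra hcon
      have h1 := hN χ hχ
      rw [if_neg hcon] at h1
      norm_num at h1
    have hexpK : ∃ A : ℕ → ℂ → ℂ, UX (fun N χ => Complex.exp (-(N * G χ)) *
        ((N : ℂ) ^ (2 * k) * XFV ls N χ)) A K ∧ ∀ χ ∈ K, A 0 χ ≠ 0 := by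
      classical
      rcases K.eq_empty_or_nonempty with hKe | hKn
      · refine ⟨fun _ _ => 1, fun j => ⟨0, Filter.Eventually.of_forall fun N χ hχ => ?_⟩,
          fun χ hχ => ?_⟩
        · rw [hKe] at hχ; exact absurd hχ (by simp)
        · exact one_ne_zero
      obtain ⟨χm, hχm, hmin⟩ := hKc.exists_isMinOn hKn Complex.continuous_im.continuousOn
      have hη : 0 < χm.im := hKim χm hχm
      have hηK : ∀ χ ∈ K, χm.im ≤ χ.im := fun χ hχ => hmin hχ
      have hK1 : K ⊆ Rc R₁ R₁ := fun χ hχ => rc_mono (by linarith) (hKsub hχ)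
      have : CompactSpace ↥K := isCompact_iff_compactSpace.1 hKc
      choose zz hzz using fun e : ↥K => hZ e e.2
      obtain ⟨Bp, hBp, hPot⟩ := hPr n hn2
      obtain ⟨hcS, hcD⟩ := S_contF hS hn2 hPot (K := K) (fun χ hχ => rc_mono a11 (hK1 hχ))
        hR0ρ' a11 hFd
      have hgap : ∀ᶠ N : ℕ in atTop, 1 / (N : ℝ) ≤ χm.im :=
        (tendsto_one_div_atTop_nhds_zero_nat).eventually_le_const hη
      obtain ⟨A, cA, hcA, hUX, hAnz, -⟩ := HQ ↥K n B' (fun e => SxF s F n (e : ℂ))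
        (fun e => DxF s F n (e : ℂ)) (fun e => hPK e e.2) hcS hcD (cw (wl ls)) (fun j hj => hM6.trans (hcw j hj)) zz hzz
        (fun N e ψ => (Real.sqrt N : ℂ) ^ n * WY ls n N (e : ℂ) ψ)
        (Filter.Eventually.of_forall fun N e => (Sep.const _).mul
          (WY_sep (by omega) hls2 hYd N _))
        (by
          filter_upwards [hgap, eventually_ge_atTop 2] with N h1 h2
          exact continuous_const.mul (WY_cont h2 (fun χ hχ t ht1 ht2 =>
            ph_ne h2 (gap_of (h1.trans (hηK χ hχ))) ht1 ht2) hls2 hYd))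
        (fun r' hr' hr2' => exq_wy (exq_wkf hWX hS hρ2 hKX HR' hbet hR1 a10 a3 a9 hη hK1 hηK
          (fun x hx y hy χ hχ => hs3 x (rc_mono a6 hx) y (rc_mono a6 hy) χ
            (rc_mono a6 (hK1 hχ))) hn2 hr' (by linarith)) (by linarith) hls2 hDX)
        n le_rfl (R₁ / 4) (by positivity) (by linarith)
      have hmain : ∀ N : ℕ, 1 ≤ N → ∀ χ : ℂ,
          (Real.sqrt N : ℂ) ^ n * (-1) ^ (N * n) * itN (fun _ => R₁ / 8) (cw (wl ls)) N n
            (fun ψ => (Real.sqrt N : ℂ) ^ n * WY ls n N χ ψ) 0 =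
          (N : ℂ) ^ (2 * k) * itN (fun _ => R₁ / 8) (cw (wl ls)) N n (WY ls n N χ) 0 := by
        intro N hN χ
        rw [Pool.Agent.Y304.PH.itN_smul (r := fun _ => R₁ / 8) (a := cw (wl ls)) hN
          (WY_sep (n := n) (by omega) hls2 hYd N χ) ((Real.sqrt N : ℂ) ^ n) (j := n) le_rfl 0]
        have h3 : ((-1 : ℂ)) ^ (N * n) = 1 := by
          rw [hn, show N * (2 * k) = 2 * (N * k) by ring, pow_mul]
          norm_num
        have h4 : (Real.sqrt N : ℂ) ^ n * (Real.sqrt N : ℂ) ^ n = (N : ℂ) ^ (2 * k) := by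
          rw [← mul_pow, ← Complex.ofReal_mul, Real.mul_self_sqrt (Nat.cast_nonneg N), ← hn]
          push_cast
          rfl
        rw [h3, mul_one, ← mul_assoc, h4]
      have h0B : (0 : ℕ → ℂ) ∈ Bx n (R₁ / 4) := fun i _ => rc_zero (by positivity)
      refine ⟨fun j χ => if h : χ ∈ K then A j (⟨χ, h⟩, 0) else 1, fun j => ?_, fun χ hχ => ?_⟩
      · obtain ⟨Cj, hCj⟩ := hUX j
        refine ⟨Cj + 1, ?_⟩
        filter_upwards [hCj, hfarK, Pool.Agent.Y304.PH.exp_small (2 * k + j)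
          (show 0 < κ / 4 by positivity) 1, eventually_ge_atTop 1] with
          N h1 h2 h3 h4 χ hχ
        have hNp : (0 : ℝ) < N := by exact_mod_cast h4
        have e1 := h1 ((⟨χ, hχ⟩ : ↥K), (0 : ℕ → ℂ)) ⟨Set.mem_univ _, h0B⟩
        simp only at e1
        rw [hmain N h4 χ, hval χ hχ _ (hzz ⟨χ, hχ⟩)] at e1
        have e2 := h2 χ hχ
        simp only [dif_pos hχ]
        have e5 : Complex.exp (-(N * G χ)) * ((N : ℂ) ^ (2 * k) * XFV ls N χ) -
            ∑ i ∈ range j, A i (⟨χ, hχ⟩, 0) / (N : ℂ) ^ i =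
          (Complex.exp (-(N * G χ)) * ((N : ℂ) ^ (2 * k) *
            itN (fun _ => R₁ / 8) (cw (wl ls)) N n (WY ls n N χ) 0) -
            ∑ i ∈ range j, A i (⟨χ, hχ⟩, 0) / (N : ℂ) ^ i) +
          Complex.exp (-(N * G χ)) * (N : ℂ) ^ (2 * k) *
            (XFV ls N χ - itN (fun _ => R₁ / 8) (cw (wl ls)) N n (WY ls n N χ) 0) := by ring
        rw [e5, add_div]
        refine (norm_add_le _ _).trans (add_le_add e1 ?_)
        rw [norm_mul, norm_mul, norm_pow, Complex.norm_natCast, Complex.norm_exp]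
        have e7 : (-((N : ℂ) * G χ)).re = -(N * (G χ).re) := by
          rw [Complex.neg_re, ← Complex.ofReal_natCast, Complex.re_ofReal_mul]
        rw [e7, le_div_iff₀ (by positivity)]
        calc Real.exp (-(N * (G χ).re)) * (N : ℝ) ^ (2 * k) *
              ‖XFV ls N χ - itN (fun _ => R₁ / 8) (cw (wl ls)) N n (WY ls n N χ) 0‖ * (N : ℝ) ^ j
            ≤ Real.exp (-(N * (G χ).re)) * (N : ℝ) ^ (2 * k) *
              Real.exp (N * ((G χ).re - κ / 4)) * (N : ℝ) ^ j := by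
                gcongr
          _ = (N : ℝ) ^ (2 * k + j) * (1 * (Real.exp (-(N * (G χ).re)) *
              Real.exp (N * ((G χ).re - κ / 4)))) := by
                rw [pow_add]; ring
          _ = (N : ℝ) ^ (2 * k + j) * (1 * Real.exp (-(N * (κ / 4)))) := by
                rw [← Real.exp_add]
                congr 3
                ring
          _ ≤ 1 := h3
      · simp only [dif_pos hχ]
        intro h0
        have h := hAnz ((⟨χ, hχ⟩ : ↥K), (0 : ℕ → ℂ)) ⟨Set.mem_univ _, h0B⟩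
        rw [h0, norm_zero] at h
        linarith
    refine ⟨?_, hexpK⟩
    intro ε hε
    -- a lower bound of `Re G`
    rcases K.eq_empty_or_nonempty with hKe | hKn
    · exact Filter.Eventually.of_forall fun N χ hχ => by rw [hKe] at hχ; exact absurd hχ (by simp)
    have hGpos : ∀ χ ∈ K, p₀ * n / 2 ≤ (G χ).re := by
      intro χ hχ
      have hPA := potA_mono (hPB χ (rc_mono (by linarith) (hKsub hχ))) hBB0
      obtain ⟨zz, hcr⟩ := HCR n B' _ _ hPA (cw (wl ls)) fun j hj => hM1.trans (hcw j hj)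
      have hpos := (hcr.close n le_rfl 0 (fun i _ => rc_zero (by positivity))).2
      rw [hval χ hχ zz hcr] at hpos
      exact hpos
    have hpn : 0 < p₀ * n := by positivity
    filter_upwards [hseq (min ε (p₀ * n / 4)) (lt_min hε (by positivity)),
      eventually_ge_atTop 1] with N hN h1 χ hχ
    have hNp : (0 : ℝ) < N := by exact_mod_cast h1
    have h2 := hN χ hχ
    have h3 := hGpos χ hχ
    refine ⟨?_, ?_⟩
    · intro h0
      have h4 := h2.trans (min_le_right _ _)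
      simp only [h0, norm_zero, Real.log_zero, zero_div, zero_sub, abs_neg] at h4
      have h5 := le_abs_self (G χ).re
      linarith
    · have h4 := h2.trans (min_le_left _ _)
      have h5 : Real.log ‖XFV ls N χ‖ / N - (G χ).re =
          (Real.log ‖XFV ls N χ‖ - N * (G χ).re) / N := by
        field_simp
      rw [h5, abs_div, abs_of_pos hNp, div_le_iff₀ hNp] at h4
      exact h4
  · intro χ hχ
    obtain ⟨h1, h2, h3⟩ := hG2 χ (hsub hχ)
    rw [← hn]
    refine ⟨fun j hj => ?_, h2, h3⟩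
    obtain ⟨q1, q2, q2d, q3, q4, q5⟩ := h1 j hj
    exact ⟨rc_mono (by linarith) q2, rc_mono (by linarith) q2d, q3, q4, q5⟩
  · intro m hm hm0 χ hχ
    have h := hG3 m (fun j hj => hm j (by omega)) hm0 χ (hsub hχ)
    rw [hnC, hnk] at h
    refine h.trans (le_of_eq ?_)
    ring

end Pool.Agent.Y833.DX
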