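import Pool.Agent.Y481.DX.Defs
import Pool.Agent.Y833.CJ.Xq1
import Pool.Agent.Y710.DR.Core
import Pool.Agent.W303.AX.UX1

/-!
# DX-XFAQF, part 1: the decorated kernel near the origin, with expansions
-/

set_option autoImplicit false

namespace Pool.Agent.Y833.DX

open Finset Filter Topology Metric
open Pool.Agent.W711.HT hiding XX
open Pool.Agent.Y472
open Pool.Agent.Y481 (itI itN Sep wts cw)
open Pool.Agent.Y481.DR Pool.Agent.Y481.DX
open Pool.Agent.W719.AX (UX EXY cv)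
open Pool.Agent.Y482.Ph (EXL GXc S_LOCN S_WX KXD3 kx3)
open Pool.Agent.Y674.CB (rc_open rc_mono rc_norm rc_zero s_diff s_diff1 s_diff2 s_diff3 Dr_mid log_near)
open Pool.Agent.Y809.CH Pool.Agent.Y833.CJ
open Pool.Agent.Y710.DR (YP_sep YP_congr Y_lim)
open scoped Real

/-! ### Algebra -/

lemma sg_eq (s : ℂ → ℂ → ℂ → ℂ) (F : ℕ → ℂ → ℂ) (n : ℕ) (χ : ℂ) :
    SgF (fun j x y => s x y χ + F j x) n = SxF s F n χ := by
  funext ψ
  unfold SgF SxF Sx
  exact sum_add_distrib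

lemma dg_eq (s : ℂ → ℂ → ℂ → ℂ) (F : ℕ → ℂ → ℂ) (n : ℕ) (χ : ℂ) :
    DgF (fun j x y => s x y χ + F j x) n = DxF s F n χ := by
  funext j ψ
  unfold DgF DxF
  rw [sg_eq]

/-- the decorated full kernel of the ring -/
noncomputable def WY (ls : List (Vx × Vx)) (n N : ℕ) (χ : ℂ) (ψ : ℕ → ℂ) : ℂ :=
  WkF n N χ ψ * YP ls N ψ

lemma wr_eq {ls : List (Vx × Vx)} {n : ℕ} (hls : 2 * ls.length = n) (N : ℕ) (χ : ℂ) :
    WrF (fun j x y => kF N x y χ * vy ls j N x) n = WY ls n N χ := by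
  funext ψ
  unfold WrF WY WkF YP
  rw [hls, prod_mul_distrib]

lemma WY_sep {ls : List (Vx × Vx)} {n : ℕ} (hn : 1 ≤ n) (hls : 2 * ls.length = n)
    (hY : ∀ j < n, ∀ N, Differentiable ℂ (vy ls j N)) (N : ℕ) (χ : ℂ) : Sep n (WY ls n N χ) :=
  (WkF_sep hn N χ).mul (YP_sep (by omega) (by rw [hls]; exact hY) N)

/-- all functions of the children are entire and even -/
lemma anL_of_vy {ls : List (Vx × Vx)} (h : ∀ j < 2 * ls.length, SubE (vy ls j)) : AnL ls := by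
  have hS : SubL ls := by
    induction ls with
    | nil => intro p hp; simp at hp
    | cons q ls ih =>
      have e0 : vy (q :: ls) 0 = q.1.2 := by unfold vy; simp
      have e1 : vy (q :: ls) 1 = q.2.2 := by unfold vy; simp
      have e2 : ∀ j, vy (q :: ls) (j + 2) = vy ls j := by
        intro j
        unfold vy
        simp
      have ih' := ih fun j hj => by
        rw [← e2]
        exact h (j + 2) (by rw [List.length_cons]; omega)
      intro p hp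
      rcases List.mem_cons.1 hp with rfl | hp
      · refine ⟨?_, ?_⟩
        · rw [← e0]
          exact h 0 (by rw [List.length_cons]; omega)
        · rw [← e1]
          exact h 1 (by rw [List.length_cons]; omega)
      · exact ih' p hp
  exact fun p hp => ⟨(hS p hp).1.an, (hS p hp).2.an, (hS p hp).1.ev, (hS p hp).2.ev⟩

/-! ### Trivial functions -/

lemma dg_one {R₀ B₀ : ℝ} (hB : 0 ≤ B₀) : DG R₀ B₀ (fun _ _ => 1) (fun _ => 0) where
  sub := ⟨fun _ => differentiable_const _, fun _ _ => rfl, fun ε hε => by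
    filter_upwards with N ψ _ _
    rw [norm_one]
    exact Real.one_le_exp (by positivity)⟩
  F0 := rfl
  Fan := differentiableOn_const _
  Fev := fun _ _ => rfl
  Fbd := fun _ _ => by rwa [norm_zero]
  Fconc := fun ψ _ => by simp
  mw := fun ε hε => by
    filter_upwards with N ψ _
    refine ⟨one_ne_zero, ?_⟩
    rw [norm_one, Real.log_one, Complex.zero_re, mul_zero, sub_zero, abs_zero]
    positivity

/-! ### Derivatives and the critical value -/

lemma DxF_eq {ρ₀ c C : ℝ} {s dl : ℂ → ℂ → ℂ → ℂ} (hS : SD3 ρ₀ c C s dl) {F : ℕ → ℂ → ℂ} {n : ℕ}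
    (hn : 1 ≤ n) {χ : ℂ} (hχ : χ ∈ Rc ρ₀ ρ₀) {y : ℕ → ℂ} (hy : ∀ i < n, y i ∈ Rc ρ₀ ρ₀) {i : ℕ}
    (hi : i < n) (hF : DifferentiableAt ℂ (F i) (y i)) :
    DxF s F n χ i y = Dx s n χ i y + deriv (F i) (y i) := by
  classical
  unfold DxF Dx SxF
  have hu : ∀ j, DifferentiableAt ℂ (fun w => Function.update y i w j) (y i) := by
    intro j
    by_cases h : j = i
    · subst h
      simp only [Function.update_self]
      exact differentiableAt_id
    · simp only [Function.update_of_ne h]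
      exact differentiableAt_const _
  have h1 : DifferentiableAt ℂ (fun w => Sx s n χ (Function.update y i w)) (y i) := by
    unfold Sx
    refine DifferentiableAt.fun_sum fun j hj => ?_
    rw [mem_range] at hj
    have h2 : DifferentiableAt ℂ (fun w => (Function.update y i w j,
      Function.update y i w ((j + 1) % n), χ)) (y i) :=
      (hu j).prodMk ((hu _).prodMk (differentiableAt_const _))
    refine DifferentiableAt.comp (g := fun p : ℂ × ℂ × ℂ => s p.1 p.2.1 p.2.2)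
      (f := fun w : ℂ => (Function.update y i w j,
      Function.update y i w ((j + 1) % n), χ)) (y i) ?_ h2
    simp only [Function.update_eq_self]
    exact s_diff hS (hy j hj) (hy _ (Nat.mod_lt _ (by omega))) hχ
  have e : (fun w => Sx s n χ (Function.update y i w) +
      ∑ j ∈ range n, F j (Function.update y i w j)) =
      fun w => Sx s n χ (Function.update y i w) +
        (F i w + ∑ j ∈ (range n).erase i, F j (y j)) := by
    funext w
    congr 1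
    rw [← add_sum_erase _ _ (mem_range.2 hi), Function.update_self]
    congr 1
    refine sum_congr rfl fun j hj => ?_
    rw [mem_erase] at hj
    rw [Function.update_of_ne hj.1]
  rw [e, deriv_fun_add h1 (hF.add_const _), deriv_add_const]

/-- the critical configuration of GPAF is the one of CRA -/
lemma crit_eqF {ρ₀ c C : ℝ} {s dl : ℂ → ℂ → ℂ → ℂ} (hS : SD3 ρ₀ c C s dl) {n : ℕ} (hn : 2 ≤ n)
    {F : ℕ → ℂ → ℂ} {R c' B' P Cc : ℝ} {a : ℕ → ℤ} {zz : ℕ → (ℕ → ℂ) → ℕ → ℂ} {χ : ℂ}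
    {z : ℕ → ℂ} (hR : 0 < R) (hRρ : R ≤ ρ₀) (hχ : χ ∈ Rc ρ₀ ρ₀)
    (hF : ∀ j < n, DifferentiableOn ℂ (F j) (Rc R R))
    (hcr : Crt n R c' B' P Cc (SxF s F n χ) (DxF s F n χ) a zz)
    (hz : ∀ j < n, z j ∈ Rc (R / 2) (R / 2))
    (hz2 : ∀ j < n, Complex.I * a ((j + 1) % n) * z ((j + 1) % n) / (2 * π) + Complex.I +
        deriv (F ((j + 1) % n)) (z ((j + 1) % n)) +
        deriv (fun w => s (z j) w χ) (z ((j + 1) % n)) +
        deriv (fun w => s w (z (((j + 1) % n + 1) % n)) χ) (z ((j + 1) % n)) = 0) :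
    Uj (SxF s F n χ) a n (zz n 0) = ∑ j ∈ range n, (Complex.I * a j * z j ^ 2 / (4 * π) +
        Complex.I * z j + F j (z j) + s (z j) (z ((j + 1) % n)) χ) := by
  have hm : ∀ j, (j + 1) % n < n := fun j => Nat.mod_lt _ (by omega)
  obtain ⟨y, hy⟩ : ∃ y : ℕ → ℂ, y = fun j => if j < n then z j else 0 := ⟨_, rfl⟩
  have hy1 : ∀ j < n, y j = z j := fun j hj => by rw [hy]; exact if_pos hj
  have hy2 : ∀ j, n ≤ j → y j = 0 := fun j hj => by rw [hy]; exact if_neg (by omega)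
  have hyB : y ∈ Bx n (R / 2) := fun j hj => by rw [hy1 j hj]; exact hz j hj
  have hyR : ∀ j < n, y j ∈ Rc R R := fun j hj => rc_mono (by linarith) (hyB j hj)
  have hu := hcr.uniq n le_rfl 0 (fun i _ => rc_zero (by positivity)) y hyB
    (fun i hi => hy2 i hi) (by
      intro i hi
      obtain ⟨j, hj, hji⟩ : ∃ j < n, (j + 1) % n = i := by
        by_cases h0 : i = 0
        · refine ⟨n - 1, by omega, ?_⟩
          rw [h0, Nat.sub_add_cancel (by omega), Nat.mod_self]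
        · refine ⟨i - 1, by omega, ?_⟩
          rw [Nat.sub_add_cancel (by omega), Nat.mod_eq_of_lt hi]
      subst hji
      rw [DxF_eq hS (by omega) hχ (fun i hi => rc_mono hRρ (hyR i hi)) (hm j)
        ((hF _ (hm j)).differentiableAt ((rc_open _ _).mem_nhds (hyR _ (hm j)))),
        Dx_mid hS hn (fun i hi => rc_mono (by linarith) (hyB i hi)) hχ hj, hy1 j hj,
        hy1 _ (hm j), hy1 _ (hm _)]
      have h := hz2 j hj
      linear_combination h)
  rw [← hu]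
  unfold Uj SxF Sx
  rw [← sum_add_distrib, ← sum_add_distrib]
  refine sum_congr rfl fun j hj => ?_
  rw [mem_range] at hj
  rw [hy1 j hj, hy1 _ (hm j)]
  ring

/-! ### Limits -/

lemma lim_mul {ρ₀ c C ρ₁ τK : ℝ} {s dl : ℂ → ℂ → ℂ → ℂ} (hS : SD3 ρ₀ c C s dl) (h1 : ρ₁ ≤ ρ₀)
    (H : AK ρ₁ s) (HR : RK τK) (hbet : 0 < bet) {r : ℝ} (hr1 : r ≤ ρ₁) (hr2 : r ≤ τK)
    {n : ℕ} (hn : 1 ≤ n) {u : ℕ → ℂ} {u₀ : ℂ} (hu0 : u₀ ∈ Rc r r)
    (hu : Tendsto u atTop (𝓝 u₀)) (hui : 0 < u₀.im)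
    (hre : ∀ x ∈ Rc r r, ∀ y ∈ Rc r r, 3 / 2 * bet < (s x y u₀).re)
    {ls : List (Vx × Vx)} (hls : 2 * ls.length = n) {R₀ B₀ : ℝ} {F : ℕ → ℂ → ℂ}
    (hD : ∀ j < n, DG R₀ B₀ (vy ls j) (F j)) (hrR : r ≤ R₀) :
    SeqLim n r (fun N => WY ls n N (u N)) (SxF s F n u₀) := by
  intro ψ ψ₀ hψ₀ hψ
  have hm : ∀ j, (j + 1) % n < n := fun j => Nat.mod_lt _ (by omega)
  have key : ∀ j < n, _ := fun j hj => kF_lim hS h1 H HR hbet hr1 hr2 (hψ₀ j hj)
    (hψ₀ ((j + 1) % n) (hm j)) hu0 (hψ j hj) (hψ ((j + 1) % n) (hm j)) hu hui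
    (hre _ (hψ₀ j hj) _ (hψ₀ ((j + 1) % n) (hm j)))
  have keyY : ∀ j < n, _ := fun j hj => Y_lim (hD j hj) (rc_mono hrR (hψ₀ j hj)) (hψ j hj)
  have h2 : ∀ᶠ N : ℕ in atTop, ∀ j ∈ range n, kF N (ψ N j) (ψ N ((j + 1) % n)) (u N) ≠ 0 := by
    rw [Filter.eventually_all_finset]
    intro j hj
    exact (key j (mem_range.1 hj)).1
  have h2Y : ∀ᶠ N : ℕ in atTop, ∀ j ∈ range n, vy ls j N (ψ N j) ≠ 0 := by
    rw [Filter.eventually_all_finset]
    intro j hj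
    exact (keyY j (mem_range.1 hj)).1
  have h3 : Tendsto (fun N : ℕ => ∑ j ∈ range n,
      Real.log ‖kF N (ψ N j) (ψ N ((j + 1) % n)) (u N)‖ / N) atTop
      (𝓝 (∑ j ∈ range n, (s (ψ₀ j) (ψ₀ ((j + 1) % n)) u₀).re)) :=
    tendsto_finsetSum _ fun j hj => (key j (mem_range.1 hj)).2
  have h3Y : Tendsto (fun N : ℕ => ∑ j ∈ range n, Real.log ‖vy ls j N (ψ N j)‖ / N) atTop
      (𝓝 (∑ j ∈ range n, (F j (ψ₀ j)).re)) :=
    tendsto_finsetSum _ fun j hj => (keyY j (mem_range.1 hj)).2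
  have h4 : (SxF s F n u₀ ψ₀).re = ∑ j ∈ range n, (s (ψ₀ j) (ψ₀ ((j + 1) % n)) u₀).re +
      ∑ j ∈ range n, (F j (ψ₀ j)).re := by
    unfold SxF Sx
    rw [Complex.add_re, Complex.re_sum, Complex.re_sum]
  rw [h4]
  refine (h3.add h3Y).congr' ?_
  filter_upwards [h2, h2Y] with N hN hNY
  unfold WY WkF YP
  rw [hls, norm_mul, norm_prod, norm_prod, Real.log_mul
    (prod_ne_zero_iff.2 fun j hj => norm_ne_zero_iff.2 (hN j hj))
    (prod_ne_zero_iff.2 fun j hj => norm_ne_zero_iff.2 (hNY j hj)),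
    Real.log_prod (fun j hj => norm_ne_zero_iff.2 (hN j hj)),
    Real.log_prod (fun j hj => norm_ne_zero_iff.2 (hNY j hj)), add_div, sum_div, sum_div]

/-! ### Bounds of the functions of the children -/

lemma yb_near {R₀ B₀ : ℝ} {Y : ℕ → ℂ → ℂ} {F : ℂ → ℂ} (hD : DG R₀ B₀ Y F) {ε : ℝ} (hε : 0 < ε) :
    ∀ᶠ N : ℕ in atTop, ∀ ψ ∈ Rc R₀ R₀, ‖Y N ψ‖ ≤ Real.exp (N * ((F ψ).re + ε)) := by
  filter_upwards [hD.mw ε hε] with N hN ψ hψ
  obtain ⟨h1, h2⟩ := hN ψ hψ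
  rw [← Real.log_le_iff_le_exp (norm_pos_iff.2 h1)]
  have := (abs_le.1 h2).2
  linarith

lemma exp_comb {N : ℕ} {x y : ℂ} {A B T : ℝ} (h1 : ‖x‖ ≤ Real.exp (N * A))
    (h2 : ‖y‖ ≤ Real.exp (N * B)) (h3 : A + B ≤ T) : ‖x * y‖ ≤ Real.exp (N * T) := by
  rw [norm_mul]
  refine (mul_le_mul h1 h2 (norm_nonneg _) (Real.exp_pos _).le).trans ?_
  rw [← Real.exp_add, ← mul_add]
  exact Real.exp_le_exp.2 (mul_le_mul_of_nonneg_left h3 (Nat.cast_nonneg _))

/-! ### Expansions -/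

lemma exq_mul {E : Type} {L : ℕ} {r : ℝ} {f g : ℕ → E → (ℕ → ℂ) → ℂ} {Φ Ψ : E → (ℕ → ℂ) → ℂ}
    (hf : EXQ E L r f Φ) (hg : EXQ E L r g Ψ) :
    EXQ E L r (fun N e ψ => f N e ψ * g N e ψ) (fun e ψ => Φ e ψ + Ψ e ψ) := by
  obtain ⟨A, c₁, hc₁, hux, hnz, hd⟩ := hf
  obtain ⟨A', c₂, hc₂, hux', hnz', hd'⟩ := hg
  refine ⟨cv A A', c₁ * c₂, by positivity, ?_, ?_, ?_⟩
  · have h := Pool.Agent.W303.AX.uxmul _ _ _ _ _ _ hux hux'
    have e : (fun (N : ℕ) (p : E × (ℕ → ℂ)) => Complex.exp (-(N * (Φ p.1 p.2 + Ψ p.1 p.2))) *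
        (f N p.1 p.2 * g N p.1 p.2)) = fun (N : ℕ) (p : E × (ℕ → ℂ)) =>
        (Complex.exp (-(N * Φ p.1 p.2)) * f N p.1 p.2) *
          (Complex.exp (-(N * Ψ p.1 p.2)) * g N p.1 p.2) := by
      funext N p
      rw [mul_add, neg_add, Complex.exp_add]
      ring
    rw [e]
    exact h
  · intro p hp
    have e : cv A A' 0 p = A 0 p * A' 0 p := by
      unfold cv
      simp
    rw [e, norm_mul]
    exact mul_le_mul (hnz p hp) (hnz' p hp) hc₂.le (norm_nonneg _)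
  · intro k e ψ hψ i hi
    have h : (fun w => cv A A' k (e, Function.update ψ i w)) = fun w =>
        ∑ l ∈ range (k + 1), A l (e, Function.update ψ i w) *
          A' (k - l) (e, Function.update ψ i w) := by
      funext w
      rfl
    rw [h]
    exact DifferentiableOn.fun_sum fun l _ => (hd l e ψ hψ i hi).mul (hd' (k - l) e ψ hψ i hi)

lemma exq_one (E : Type) (L : ℕ) (r : ℝ) :
    EXQ E L r (fun _ _ _ => 1) (fun _ _ => 0) := by
  refine ⟨fun k _ => if k = 0 then 1 else 0, 1, one_pos, ?_, ?_, ?_⟩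
  · intro K
    refine ⟨1, Eventually.of_forall fun N p _ => ?_⟩
    beta_reduce
    rw [mul_zero, neg_zero, Complex.exp_zero, one_mul]
    rcases K with _ | K
    · simp
    · rw [Finset.sum_range_succ']
      simp only [Nat.add_eq_zero_iff, one_ne_zero, and_false, if_false, zero_div, sum_const_zero,
        zero_add, if_true, pow_zero, div_one, sub_self, norm_zero]
      positivity
  · intro p _
    simp
  · intro k e ψ _ i _
    exact differentiableOn_const _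

lemma exq_var (E : Type) {L : ℕ} {r R₀ B₀ : ℝ} (hr : r ≤ R₀) {Y : ℕ → ℂ → ℂ} {F : ℂ → ℂ}
    {A : ℕ → ℂ → ℂ} (hD : DGX R₀ B₀ Y F A) {j : ℕ} (hj : j < L) :
    EXQ E L r (fun N _ ψ => Y N (ψ j)) (fun _ ψ => F (ψ j)) := by
  obtain ⟨c₁, hc₁, hnz⟩ := hD.nz
  refine ⟨fun k p => A k (p.2 j), c₁, hc₁, ?_, ?_, ?_⟩
  · intro K
    obtain ⟨C, hC⟩ := hD.ux K
    refine ⟨C, ?_⟩
    filter_upwards [hC] with N hN p hp
    exact hN (p.2 j) (rc_mono hr (hp.2 j hj))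
  · intro p hp
    exact hnz _ (rc_mono hr (hp.2 j hj))
  · intro k e ψ hψ i hi
    by_cases h : j = i
    · subst h
      simp only [Function.update_self]
      exact (hD.an k).mono (rc_mono hr)
    · simp only [Function.update_of_ne h]
      exact differentiableOn_const _

lemma exq_YP (E : Type) {n : ℕ} {r R₀ B₀ : ℝ} (hr : r ≤ R₀) {ls : List (Vx × Vx)}
    (hls : 2 * ls.length = n) {F : ℕ → ℂ → ℂ} {An : ℕ → ℕ → ℂ → ℂ}
    (hD : ∀ j < n, DGX R₀ B₀ (vy ls j) (F j) (An j)) :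
    EXQ E n r (fun N _ ψ => YP ls N ψ) (fun _ ψ => ∑ j ∈ range n, F j (ψ j)) := by
  have key : ∀ m ≤ n, EXQ E n r (fun N _ ψ => ∏ j ∈ range m, vy ls j N (ψ j))
      (fun _ ψ => ∑ j ∈ range m, F j (ψ j)) := by
    intro m
    induction m with
    | zero =>
      intro _
      simp only [range_zero, prod_empty, sum_empty]
      exact exq_one E n r
    | succ m ih =>
      intro hm
      have hm' : m < n := by omega
      have h := exq_mul (ih (by omega)) (exq_var E hr (hD m hm') (L := n) hm')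
      simp only [prod_range_succ, sum_range_succ]
      exact h
  have h := key n le_rfl
  unfold YP
  rw [hls]
  exact h

lemma exq_wy {s : ℂ → ℂ → ℂ → ℂ} {K : Set ℂ} {n : ℕ} {r R₀ B₀ : ℝ}
    (h : EXQ ↥K n r (fun N e ψ => (Real.sqrt N : ℂ) ^ n * WkF n N (e : ℂ) ψ)
      (fun e => Sx s n (e : ℂ))) (hr : r ≤ R₀) {ls : List (Vx × Vx)}
    (hls : 2 * ls.length = n) {F : ℕ → ℂ → ℂ} {An : ℕ → ℕ → ℂ → ℂ}
    (hD : ∀ j < n, DGX R₀ B₀ (vy ls j) (F j) (An j)) :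
    EXQ ↥K n r (fun N e ψ => (Real.sqrt N : ℂ) ^ n * WY ls n N (e : ℂ) ψ)
      (fun e => SxF s F n (e : ℂ)) := by
  have h1 := exq_mul h (exq_YP ↥K hr hls hD)
  have e : (fun (N : ℕ) (e : ↥K) (ψ : ℕ → ℂ) => (Real.sqrt N : ℂ) ^ n * WY ls n N (e : ℂ) ψ) =
      fun (N : ℕ) (e : ↥K) (ψ : ℕ → ℂ) => (Real.sqrt N : ℂ) ^ n * WkF n N (e : ℂ) ψ *
        YP ls N ψ := by
    funext N e ψ
    unfold WY
    ring
  rw [e]
  exact h1

/-! ### Continuity -/

lemma YP_cont {n : ℕ} {ls : List (Vx × Vx)} (hls : 2 * ls.length = n)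
    (hY : ∀ j < n, ∀ N, Differentiable ℂ (vy ls j N)) (N : ℕ) {E : Type} [TopologicalSpace E] :
    Continuous fun x : E × (Fin n → ℂ) => YP ls N (ex n x.2) := by
  unfold YP
  rw [hls]
  refine continuous_finsetProd _ fun j hj => ?_
  exact (hY j (mem_range.1 hj) N).continuous.comp (ex_cont n j)

lemma WY_cont {N : ℕ} (hN : 2 ≤ N) {K : Set ℂ}
    (hK : ∀ χ ∈ K, ∀ t : ℕ, 1 ≤ t → t < N → Ph N χ t ≠ 0) {n : ℕ} {ls : List (Vx × Vx)}
    (hls : 2 * ls.length = n) (hY : ∀ j < n, ∀ N, Differentiable ℂ (vy ls j N)) :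
    Continuous fun x : ↥K × (Fin n → ℂ) => WY ls n N (x.1 : ℂ) (ex n x.2) :=
  (WkF_cont hN hK n).mul (YP_cont hls hY N)

lemma F_cont {n : ℕ} {R : ℝ} {F : ℂ → ℂ} (hF : ContinuousOn F (Rc R R)) {j : ℕ} (hj : j < n)
    {E : Type} [TopologicalSpace E] :
    ContinuousOn (fun x : E × (Fin n → ℂ) => F (ex n x.2 j)) (Set.univ ×ˢ bx n R) := by
  refine hF.comp (ex_cont n j).continuousOn ?_
  rintro x ⟨_, hx⟩
  change ex n x.2 j ∈ Rc R R
  unfold ex
  rw [dif_pos hj]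
  exact hx _

lemma S_contF {ρ₀ c₀ C : ℝ} {s dl : ℂ → ℂ → ℂ → ℂ} (hS : SD3 ρ₀ c₀ C s dl) {n : ℕ} (hn : 2 ≤ n)
    {R c B p₀ : ℝ} (hP : Pot (n + 1) R c B p₀ (Sr s n) (Dr s n)) {K : Set ℂ} (hK : K ⊆ Rc R R)
    (hRρ : R ≤ ρ₀) {R' : ℝ} (hR' : R' ≤ R) {F : ℕ → ℂ → ℂ}
    (hF : ∀ j < n, DifferentiableOn ℂ (F j) (Rc R' R')) :
    ContinuousOn (fun x : ↥K × (Fin n → ℂ) => SxF s F n (x.1 : ℂ) (ex n x.2))
      (Set.univ ×ˢ bx n R') ∧
    ∀ j < n, ContinuousOn (fun x : ↥K × (Fin n → ℂ) => DxF s F n (x.1 : ℂ) j (ex n x.2))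
      (Set.univ ×ˢ bx n R') := by
  obtain ⟨h1, h2⟩ := S_cont hn hP hK
  have hbxs : (Set.univ : Set ↥K) ×ˢ bx n R' ⊆ (Set.univ : Set ↥K) ×ˢ bx n R :=
    fun x hx => ⟨hx.1, fun i => rc_mono hR' (hx.2 i)⟩
  have hmem : ∀ x ∈ (Set.univ : Set ↥K) ×ˢ bx n R', ∀ i < n, ex n x.2 i ∈ Rc R' R' := by
    intro x hx i hi
    unfold ex
    rw [dif_pos hi]
    exact hx.2 _
  constructor
  · unfold SxF
    exact (h1.mono hbxs).add (continuousOn_finsetSum _ fun j hj =>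
      F_cont (hF j (mem_range.1 hj)).continuousOn (mem_range.1 hj))
  · intro j hj
    have h3 : ContinuousOn (fun x : ↥K × (Fin n → ℂ) => deriv (F j) (ex n x.2 j))
        (Set.univ ×ˢ bx n R') :=
      F_cont ((hF j hj).deriv (rc_open R' R')).continuousOn hj
    refine ((h2 j hj).mono hbxs |>.add h3).congr fun x hx => ?_
    exact DxF_eq hS (by omega) (rc_mono hRρ (hK x.1.2))
      (fun i hi => rc_mono (hR'.trans hRρ) (hmem x hx i hi)) hj
      ((hF j hj).differentiableAt ((rc_open _ _).mem_nhds (hmem x hx j hj)))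

end Pool.Agent.Y833.DX
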